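import Pool.Agent.MP_856573_co.H74.Spec

/-!
The choice of the hubs by averaging over the 48 modes.
-/

namespace Pool.Agent.MP_856573_co.H74

open Finset
open Pool.Agent.MP_31805c_co.H47 (K4)

namespace Sel2Aux

/-- A mode: two colours and a number; the number zero means that both colours are taken. -/
abbrev Md : Type := K4 × K4 × Fin 4

/-- The modes. -/
def M : Finset Md := univ.filter fun μ => μ.1 ≠ μ.2.1

/-- The colours that are taken in a mode. -/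
abbrev Tn (μ : Md) (a : K4) : Prop := a = μ.1 ∨ (μ.2.2 = 0 ∧ a = μ.2.1)

/-- The colours that do not occur in a mode. -/
abbrev Ot (μ : Md) (a : K4) : Prop := a ≠ μ.1 ∧ a ≠ μ.2.1

theorem c0 : M.card = 48 := by decide +kernel

theorem c1 : ∀ a, (M.filter fun μ => Tn μ a).card ≤ 15 := by decide +kernel

theorem c2 : ∀ a b d e : K4, a ≠ b → a ≠ d → b ≠ d →
    (M.filter fun μ => e = μ.2.1 ∧ μ.2.2 ≠ 0 ∧ a ≠ μ.1 ∧ b ≠ μ.1 ∧ d ≠ μ.1).card ≤ 3 := by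
  decide +kernel

theorem c3 : ∀ a e : K4, (M.filter fun μ => e = μ.2.1 ∧ μ.2.2 ≠ 0 ∧ a = μ.1).card ≤ 3 := by
  decide +kernel

theorem c4 : ∀ a b : K4, a ≠ b → (M.filter fun μ => Ot μ a ∧ Ot μ b).card ≤ 8 := by decide +kernel

theorem c5 : ∀ a b e : K4, a ≠ b → a ≠ e → b ≠ e →
    (M.filter fun μ => (Ot μ a ∧ Ot μ b) ∧ ¬ Tn μ e).card ≤ 3 := by decide +kernel

set_option synthInstance.maxSize 1024 in
theorem c6 : ∀ a b d k l : K4, a ≠ b → a ≠ d → b ≠ d → k ≠ l → a ≠ k → b ≠ k → d ≠ k →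
    a = l ∨ b = l ∨ d = l := by decide +kernel

variable {V : Type}

theorem wsum (s : Finset V) (P : Md → V → Prop) [∀ μ, DecidablePred (P μ)] (n : ℕ)
    (h : ∀ v ∈ s, ∃ t : Finset Md, t.card ≤ n ∧ ∀ μ ∈ M, P μ v → μ ∈ t) :
    ∑ μ ∈ M, (s.filter (P μ)).card ≤ n * s.card := by
  simp only [card_filter]
  rw [sum_comm, mul_comm, ← smul_eq_mul]
  refine sum_le_card_nsmul _ _ _ fun v hv => ?_
  obtain ⟨t, h1, h2⟩ := h v hv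
  rw [← card_filter]
  exact (card_le_card fun μ hμ => h2 μ (mem_filter.1 hμ).1 (mem_filter.1 hμ).2).trans h1

variable [DecidableEq V]

theorem bsum {X : Type} (s : Finset X) (f : Md → X → Finset V) (g : X → ℕ)
    (h : ∀ x ∈ s, ∑ μ ∈ M, (f μ x).card ≤ g x) :
    ∑ μ ∈ M, (s.biUnion (f μ)).card ≤ ∑ x ∈ s, g x :=
  (sum_le_sum fun _ _ => card_biUnion_le).trans (sum_comm.trans_le (sum_le_sum h))

variable {c : V → K4} {𝒮 Hd : Finset (Finset V)} {I : Finset V → Finset V} {T0 : Finset V}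

theorem irr (h : Lam c 𝒮 I T0) {T : Finset V} (hT : T ∈ 𝒮) : ¬ Lt I T T :=
  fun ⟨_, h1, h2⟩ => disjoint_left.1 (h.dis T hT) h1 h2

theorem trans (h : Lam c 𝒮 I T0) {T T' T'' : Finset V} (h1 : T' ∈ 𝒮) (h2 : T'' ∈ 𝒮)
    (a : Lt I T T') (b : Lt I T' T'') : Lt I T T'' :=
  let ⟨v, h3, h4⟩ := a
  ⟨v, h3, (h.sub _ h1 _ h2 b).2 h4⟩

theorem cmp (h : Lam c 𝒮 I T0) {J T T' : Finset V} (h0 : J ∈ 𝒮) (h1 : T ∈ 𝒮) (h2 : T' ∈ 𝒮)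
    (a : Lt I J T) (b : Lt I J T') : T = T' ∨ Lt I T T' ∨ Lt I T' T := by
  by_cases e : T = T'
  · exact Or.inl e
  obtain ⟨v, hv⟩ := h.ne J h0
  exact Or.inr ((h.lam T h1 T' h2 e).resolve_left fun d =>
    disjoint_left.1 d ((h.sub _ h0 _ h1 a).2 hv) ((h.sub _ h0 _ h2 b).2 hv))

theorem three (h : Lam c 𝒮 I T0) {T : Finset V} (hT : T ∈ 𝒮) :
    ∃ x y z, T = {x, y, z} ∧ c x ≠ c y ∧ c x ≠ c z ∧ c y ≠ c z := by
  obtain ⟨x, y, z, h1, h2, h3, rfl⟩ := card_eq_three.1 (h.card T hT)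
  exact ⟨x, y, z, rfl, fun e => h1 (h.col _ hT _ (by simp) _ (by simp) e),
    fun e => h2 (h.col _ hT _ (by simp) _ (by simp) e),
    fun e => h3 (h.col _ hT _ (by simp) _ (by simp) e)⟩

theorem one (h : Lam c 𝒮 I T0) {J T : Finset V} (hJ : J ∈ 𝒮) (e : (J ∩ T).card = 2) :
    (J \ T).card = 1 := by
  have := card_sdiff_add_card_inter J T
  have := h.card J hJ
  omega

variable [Fintype V]

/-- The edge through which a head is reached is unique. -/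
theorem edge_eq (h : Lam c 𝒮 I T0) (d : Des 𝒮 Hd I T0) {J J' T : Finset V} (r : Rr 𝒮 Hd I J T)
    (r' : Rr 𝒮 Hd I J' T) : J ∩ T = J' ∩ T := by
  have k1 : ∀ {J J'}, Rr 𝒮 Hd I J T → Rr 𝒮 Hd I J' T → Lt I J J' → J ∩ T = J' ∩ T :=
    fun ⟨a1, a2, _, _, a5, _⟩ ⟨b1, _, _, b4, b5, _⟩ l => eq_of_subset_of_card_le (fun v hv =>
      mem_inter.2 ⟨(mem_union.1 ((h.sub _ a1 _ b1 l).1 (mem_inter.1 hv).1)).resolve_right fun i =>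
        disjoint_left.1 (h.dis T (d.sub a2)) (mem_inter.1 hv).2 ((h.sub _ b1 _ (d.sub a2) b4).2 i),
        (mem_inter.1 hv).2⟩) (by rw [a5, b5])
  have k2 : ∀ {J J'}, Rr 𝒮 Hd I J T → Rr 𝒮 Hd I J' T → ∀ H ∈ Hd, Lt I J H → Lt I J' H :=
    fun ⟨a1, a2, _, a4, _, a6⟩ ⟨_, _, _, b4, _, _⟩ H hH l => by
      rcases cmp h a1 (d.sub hH) (d.sub a2) l a4 with rfl | e | e
      exacts [b4, absurd hH (a6 H (d.sub hH) l e), trans h (d.sub a2) (d.sub hH) b4 e]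
  by_contra e
  obtain ⟨H, h1, h2⟩ := d.sep J r.1 J' r'.1 r.2.2.1 r'.2.2.1 (fun i => e (i ▸ rfl))
    (fun l => e (k1 r r' l)) fun l => e (k1 r' r l).symm
  exact h2 ⟨k2 r r' H h1, k2 r' r H h1⟩

variable (c 𝒮 Hd I)

open Classical in
/-- The hubs of a mode. -/
noncomputable def Hb (μ : Md) : Finset V :=
  (Hd.biUnion id).filter (fun v => Tn μ (c v)) ∪
  Hd.biUnion (fun T => T.filter fun v => c v = μ.2.1 ∧ μ.2.2 ≠ 0 ∧ ∀ u ∈ T, c u ≠ μ.1) ∪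
  (Hd.filter fun T => ∃ J, Rr 𝒮 Hd I J T).biUnion (fun T => T.filter fun v =>
    c v = μ.2.1 ∧ μ.2.2 ≠ 0 ∧ ∃ J, Rr 𝒮 Hd I J T ∧ ∃ w ∈ T, w ∉ J ∧ c w = μ.1) ∪
  ((𝒮 ×ˢ Hd).filter fun x => Rr 𝒮 Hd I x.1 x.2).biUnion fun x => (x.1 \ x.2).filter fun v =>
    (∀ u ∈ x.1 ∩ x.2, Ot μ (c u)) ∧ ¬ (v ∈ Hd.biUnion id ∧ Tn μ (c v))

variable {c 𝒮 Hd I}

theorem mem_hb {μ : Md} {v : V} : v ∈ Hb c 𝒮 Hd I μ ↔ ((∃ T ∈ Hd, v ∈ T) ∧ Tn μ (c v)) ∨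
    (∃ T ∈ Hd, v ∈ T ∧ c v = μ.2.1 ∧ μ.2.2 ≠ 0 ∧ ∀ u ∈ T, c u ≠ μ.1) ∨
    (∃ T, v ∈ T ∧ c v = μ.2.1 ∧ μ.2.2 ≠ 0 ∧ ∃ J, Rr 𝒮 Hd I J T ∧ ∃ w ∈ T, w ∉ J ∧ c w = μ.1) ∨
    ∃ J T, Rr 𝒮 Hd I J T ∧ v ∈ J \ T ∧ (∀ u ∈ J ∩ T, Ot μ (c u)) ∧
      ¬ ((∃ T ∈ Hd, v ∈ T) ∧ Tn μ (c v)) := by
  simp only [Hb, mem_union, mem_filter, mem_biUnion, id, mem_product, or_assoc]
  refine or_congr_right (or_congr_right (or_congr ⟨fun ⟨T, _, h⟩ => ⟨T, h⟩,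
    fun ⟨T, h1, h2, h3, J, h4, h5⟩ => ⟨T, ⟨h4.2.1, J, h4⟩, h1, h2, h3, J, h4, h5⟩⟩
    ⟨fun ⟨x, h1, h⟩ => ⟨x.1, x.2, h1.2, h⟩, fun ⟨J, T, h1, h⟩ => ⟨(J, T), ⟨⟨h1.1, h1.2.1⟩, h1⟩, h⟩⟩))

theorem count (h : Lam c 𝒮 I T0) (d : Des 𝒮 Hd I T0) :
    ∑ μ ∈ M, (Hb c 𝒮 Hd I μ).card ≤ 15 * Fintype.card V := by
  classical
  refine le_trans ?_ d.count
  refine (sum_le_sum fun μ _ => (card_union_le _ _).trans (Nat.add_le_add_right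
    ((card_union_le _ _).trans (Nat.add_le_add_right (card_union_le _ _) _)) _)).trans ?_
  simp only [sum_add_distrib]
  refine Nat.add_le_add (Nat.add_le_add (Nat.add_le_add ?_ ?_) ?_) ?_
  · convert wsum _ (fun μ v => Tn μ (c v)) 15 fun v _ =>
      ⟨_, c1 (c v), fun μ h1 h2 => mem_filter.2 ⟨h1, h2⟩⟩
  · rw [mul_comm, ← smul_eq_mul, ← sum_const]
    refine bsum _ _ _ fun T hT => ?_
    obtain ⟨x, y, z, e, h1, h2, h3⟩ := three h (d.sub hT)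
    convert wsum T (fun μ v => c v = μ.2.1 ∧ μ.2.2 ≠ 0 ∧ ∀ u ∈ T, c u ≠ μ.1) 3 fun v _ =>
      ⟨_, c2 _ _ _ (c v) h1 h2 h3, fun μ a b => mem_filter.2 ⟨a, b.1, b.2.1,
        b.2.2 x (by simp [e]), b.2.2 y (by simp [e]), b.2.2 z (by simp [e])⟩⟩
    rw [h.card T (d.sub hT)]
  · rw [mul_comm, ← smul_eq_mul, ← sum_const]
    refine bsum _ _ _ fun T hT => ?_
    obtain ⟨hT, J, r⟩ := mem_filter.1 hT
    obtain ⟨w, e⟩ := card_eq_one.1 (one h (d.sub hT) (T := J) (inter_comm J T ▸ r.2.2.2.2.1))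
    have k : ∀ J', Rr 𝒮 Hd I J' T → ∀ u ∈ T, u ∉ J' → u = w := fun J' r' u h1 h2 =>
      mem_singleton.1 (e ▸ mem_sdiff.2 ⟨h1, fun i =>
        h2 (mem_inter.1 (edge_eq h d r r' ▸ mem_inter.2 ⟨i, h1⟩)).1⟩)
    have := wsum (J ∩ T) (fun μ v => c v = μ.2.1 ∧ μ.2.2 ≠ 0 ∧ c w = μ.1) 3 fun v _ =>
      ⟨_, c3 (c w) (c v), fun μ a b => mem_filter.2 ⟨a, b⟩⟩
    rw [r.2.2.2.2.1] at this
    refine le_trans (sum_le_sum fun μ hμ => card_le_card fun v hv => ?_) this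
    obtain ⟨h1, h2, h3, J', r', u, h4, h5, h6⟩ := mem_filter.1 hv
    obtain rfl := k J' r' u h4 h5
    refine mem_filter.2 ⟨mem_inter.2 ⟨?_, h1⟩, h2, h3, h6⟩
    by_contra i
    obtain rfl := k J r v h1 i
    exact (mem_filter.1 hμ).2 (h6.symm.trans h2)
  · refine bsum _ _ _ fun x hx => ?_
    have r := (mem_filter.1 hx).2
    obtain ⟨a, b, ab, e⟩ := card_eq_two.1 r.2.2.2.2.1
    have ha : a ∈ x.1 ∩ x.2 := by simp [e]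
    have hb : b ∈ x.1 ∩ x.2 := by simp [e]
    have k : ∀ u ∈ x.1, ∀ v ∈ x.1, u ≠ v → c u ≠ c v := fun u hu v hv n i =>
      n (h.col _ r.1 u hu v hv i)
    have k1 := k a (mem_inter.1 ha).1 b (mem_inter.1 hb).1 ab
    rw [← mul_one (ite _ _ _), ← one h r.1 r.2.2.2.2.1]
    convert wsum (x.1 \ x.2) (fun μ v => (∀ u ∈ x.1 ∩ x.2, Ot μ (c u)) ∧
      ¬ (v ∈ Hd.biUnion id ∧ Tn μ (c v))) _ fun v hv => ?_
    split_ifs with i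
    · have k2 : ∀ u ∈ x.1 ∩ x.2, c u ≠ c v := fun u hu => k u (mem_inter.1 hu).1 v
        (mem_sdiff.1 hv).1 fun j => (mem_sdiff.1 hv).2 (j ▸ (mem_inter.1 hu).2)
      exact ⟨_, c5 _ _ _ k1 (k2 a ha) (k2 b hb), fun μ h1 h2 =>
        mem_filter.2 ⟨h1, ⟨h2.1 a ha, h2.1 b hb⟩, fun j => h2.2 ⟨i hv, j⟩⟩⟩
    · exact ⟨_, c4 _ _ k1, fun μ h1 h2 => mem_filter.2 ⟨h1, h2.1 a ha, h2.1 b hb⟩⟩

theorem col (h : Lam c 𝒮 I T0) {μ : Md} (m : μ ∈ M) {v : V} (hv : v ∈ Hb c 𝒮 Hd I μ) :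
    c v = μ.1 ∨ c v = μ.2.1 := by
  rcases mem_hb.1 hv with ⟨-, e | e⟩ | ⟨_, -, -, e, -⟩ | ⟨_, -, e, -⟩ | ⟨J, T, r, h1, h2, -⟩
  exacts [Or.inl e, Or.inr e.2, Or.inr e, Or.inr e, by
    obtain ⟨a, b, ab, e⟩ := card_eq_two.1 r.2.2.2.2.1
    have ha : a ∈ J ∩ T := by simp [e]
    have hb : b ∈ J ∩ T := by simp [e]
    have k : ∀ u ∈ J ∩ T, c u ≠ c v := fun u hu i => (mem_sdiff.1 h1).2
      (h.col _ r.1 u (mem_inter.1 hu).1 v (mem_sdiff.1 h1).1 i ▸ (mem_inter.1 hu).2)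
    exact or_iff_not_imp_left.2 fun n => ((c6 _ _ _ _ _ (fun i => ab (h.col _ r.1 a
      (mem_inter.1 ha).1 b (mem_inter.1 hb).1 i)) (k a ha) (k b hb) (mem_filter.1 m).2 (h2 a ha).1
      (h2 b hb).1 n).resolve_left (h2 a ha).2).resolve_left (h2 b hb).2]

/-- Every head has a hub. -/
theorem hit_head (h : Lam c 𝒮 I T0) (d : Des 𝒮 Hd I T0) {μ : Md} (m : μ ∈ M) {T : Finset V}
    (hT : T ∈ Hd) : ¬ Disjoint T (Hb c 𝒮 Hd I μ) := fun n => by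
  have k : ∀ u ∈ T, c u ≠ μ.1 := fun u hu e =>
    disjoint_left.1 n hu (mem_hb.2 (Or.inl ⟨⟨T, hT, hu⟩, Or.inl e⟩))
  have k1 : ∀ u ∈ T, c u ≠ μ.2.1 := fun u hu e => disjoint_left.1 n hu (mem_hb.2 (by
    by_cases i : μ.2.2 = 0
    exacts [Or.inl ⟨⟨T, hT, hu⟩, Or.inr ⟨i, e⟩⟩, Or.inr (Or.inl ⟨T, hT, hu, e, i, k⟩)]))
  obtain ⟨x, y, z, rfl, h1, h2, h3⟩ := three h (d.sub hT)
  rcases c6 _ _ _ _ _ h1 h2 h3 (mem_filter.1 m).2 (k x (by simp)) (k y (by simp)) (k z (by simp))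
    with e | e | e <;> exact k1 _ (by simp) e

theorem apex {μ : Md} {J T : Finset V} (r : Rr 𝒮 Hd I J T) (o : ∀ u ∈ J ∩ T, Ot μ (c u)) :
    J \ T ⊆ Hb c 𝒮 Hd I μ := fun v hv => mem_hb.2 (by
  by_cases i : (∃ T ∈ Hd, v ∈ T) ∧ Tn μ (c v)
  exacts [Or.inl i, Or.inr (Or.inr (Or.inr ⟨J, T, r, hv, o, i⟩))])

theorem hit_rr (h : Lam c 𝒮 I T0) {μ : Md} {J T : Finset V} (r : Rr 𝒮 Hd I J T)
    (o : ∀ u ∈ J ∩ T, Ot μ (c u)) : ¬ Disjoint J (Hb c 𝒮 Hd I μ) := fun n => by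
  obtain ⟨v, hv⟩ := card_pos.1 ((one h r.1 r.2.2.2.2.1).symm ▸ one_pos : 0 < (J \ T).card)
  exact disjoint_left.1 n (mem_sdiff.1 hv).1 (apex r o hv)

/-- The colours of the edge through which a triangle without hub is reached do not occur. -/
theorem out {μ : Md} {J T : Finset V} (r : Rr 𝒮 Hd I J T) (n : Disjoint J (Hb c 𝒮 Hd I μ)) :
    ∀ u ∈ J ∩ T, Ot μ (c u) := by
  have k : ∀ u ∈ J ∩ T, ¬ Tn μ (c u) := fun u hu e => disjoint_left.1 n (mem_inter.1 hu).1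
    (mem_hb.2 (Or.inl ⟨⟨T, r.2.1, (mem_inter.1 hu).2⟩, e⟩))
  refine fun u hu => ⟨fun e => k u hu (Or.inl e), fun e => ?_⟩
  have i : μ.2.2 ≠ 0 := fun i => k u hu (Or.inr ⟨i, e⟩)
  refine disjoint_left.1 n (mem_inter.1 hu).1 (mem_hb.2 (Or.inr ?_))
  by_cases a : ∀ w ∈ T, c w ≠ μ.1
  · exact Or.inl ⟨T, r.2.1, (mem_inter.1 hu).2, e, i, a⟩
  · push Not at a
    obtain ⟨w, h1, h2⟩ := a
    exact Or.inr (Or.inl ⟨T, (mem_inter.1 hu).2, e, i, J, r, w, h1,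
      fun j => k w (mem_inter.2 ⟨j, h1⟩) (Or.inl h2), h2⟩)

end Sel2Aux

open Sel2Aux in
theorem sel2 : StmtSEL2 := by
  classical
  intro V _ _ c 𝒮 Hd I T0 h d
  obtain ⟨μ, m, hs⟩ : ∃ μ ∈ M, 16 * (Hb c 𝒮 Hd I μ).card ≤ 5 * Fintype.card V := by
    by_contra n
    push Not at n
    have h1 := card_nsmul_le_sum M (fun μ => 16 * (Hb c 𝒮 Hd I μ).card) _ fun μ m => n μ m
    have h2 := count h d
    rw [c0, ← mul_sum, smul_eq_mul] at h1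
    omega
  set B := Hb c 𝒮 Hd I μ
  let C := 𝒮.filter fun T => T ≠ T0 ∧ (T ∈ Hd ∨ (∃ T', Rr 𝒮 Hd I T T' ∧
    ∀ u ∈ T ∩ T', Ot μ (c u)) ∨ Disjoint T B)
  have hC : ∀ T ∈ Hd, T ∈ C := fun T hT =>
    mem_filter.2 ⟨d.sub hT, fun e => d.root (e ▸ hT), Or.inl hT⟩
  have hS : ∀ T ∈ C, T ∈ 𝒮 := fun T hT => (mem_filter.1 hT).1
  refine ⟨B, C, hs, ⟨_, _, fun v => col h m⟩, fun T hT => ⟨hS T hT, (mem_filter.1 hT).2.1⟩,
    fun T h1 h2 h3 => mem_filter.2 ⟨h1, h2, Or.inr (Or.inr h3)⟩,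
    fun T1 h1 T2 h2 n d1 d2 => ?_, fun T hT e T1 h1 d1 l s => ?_⟩
  · by_cases a : Lt I T1 T2
    · exact ⟨T2, h2, fun i => irr h (hS _ h2) (i.1 a)⟩
    by_cases b : Lt I T2 T1
    · exact ⟨T1, h1, fun i => irr h (hS _ h1) (i.2 b)⟩
    obtain ⟨J, j1, j2⟩ := d.sep T1 (hS _ h1) T2 (hS _ h2) (fun i => hit_head h d m i d1)
      (fun i => hit_head h d m i d2) n a b
    exact ⟨J, hC J j1, j2⟩
  · by_contra n
    have n1 : T1 ∉ Hd := fun i => hit_head h d m i d1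
    have k : ∀ T', Rr 𝒮 Hd I T1 T' → False := fun T' r => hit_rr h r (out r d1) d1
    have e2 : (T \ B).card = 2 := by
      have := card_sdiff_add_card_inter T B
      have := h.card T (hS T hT)
      omega
    have k1 : ∀ T' ∈ Hd, T \ B ⊆ T' → (T1 ∩ T').card = 2 := fun T' h2 s' => by
      have a1 := card_le_card (subset_inter s s')
      have a2 := card_le_card (inter_subset_left (s₁ := T1) (s₂ := T'))
      have a3 := h.card _ (hS _ h1)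
      have a4 := h.card _ (d.sub h2)
      by_contra a5
      refine n1 (eq_of_subset_of_card_le (s := T1) (t := T') (inter_eq_left.1
        (eq_of_subset_of_card_le inter_subset_left (by omega))) (by omega) ▸ h2)
    rcases (mem_filter.1 hT).2.2 with a | ⟨T', r, o⟩ | a
    · exact k T ⟨hS _ h1, a, n1, l, k1 T a sdiff_subset, fun J _ j1 j2 j3 => n ⟨J, hC J j3, j1, j2⟩⟩
    · have l' := trans h r.1 (d.sub r.2.1) l r.2.2.2.1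
      refine k T' ⟨hS _ h1, r.2.1, n1, l', k1 T' r.2.1 fun v hv => ?_, fun J j0 j1 j2 j3 => ?_⟩
      · by_contra i
        exact (mem_sdiff.1 hv).2 (apex r o (mem_sdiff.2 ⟨(mem_sdiff.1 hv).1, i⟩))
      · rcases cmp h (hS _ h1) j0 r.1 j1 l with rfl | i | i
        exacts [r.2.2.1 j3, n ⟨J, hC J j3, j1, i⟩, r.2.2.2.2.2 J j0 i j2 j3]
    · rw [disjoint_iff_inter_eq_empty.1 a] at e
      exact absurd e (by simp)

end Pool.Agent.MP_856573_co.H74
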